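import Pool.Agent.Y522.Stm6

/-!
Local homeomorphisms equal to a homeomorphism onto the ball off a compact set (job SH3-Cover).
-/

set_option autoImplicit false

open Set Filter Topology Metric Function MeasureTheory
open scoped Manifold ContDiff

noncomputable section

namespace Pool.Agent.Y899.SH

open Pool.Agent.Y522

theorem mem_of_mem_closure_inter {α : Type*} [TopologicalSpace α] {s K : Set α} {y : α}
    (hK : K ∈ 𝓝 y) (hc : IsClosed (s ∩ K)) (hy : y ∈ closure s) : y ∈ s := by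
  have h1 : y ∈ closure (s ∩ K) := by
    rw [mem_closure_iff_nhds] at hy ⊢
    intro t ht
    obtain ⟨z, ⟨hz1, hz2⟩, hz3⟩ := hy (t ∩ K) (Filter.inter_mem ht hK)
    exact ⟨z, hz1, hz3, hz2⟩
  rw [hc.closure_eq] at h1
  exact h1.1

theorem cover : StCover := by
  intro n X _ _ _ F F' C hF hrange hC heq hlt hLD
  have hF'c : Continuous F' := continuous_iff_continuousAt.mpr fun x => (hLD x).continuousAt
  have hopen : ∀ U : Set X, IsOpen U → IsOpen (F' '' U) := fun U hU =>
    isOpen_image_of_LD hU (fun x _ => hLD x)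
  have hsub : range F' ⊆ ball 0 1 := by
    rintro _ ⟨x, rfl⟩
    rw [mem_ball_zero_iff]
    exact hlt x
  have hne : Nonempty X := by
    have : (0 : E n) ∈ range F := by
      rw [hrange]
      exact mem_ball_self one_pos
    obtain ⟨x, -⟩ := this
    exact ⟨x⟩
  -- properness
  have hprop : ∀ K : Set (E n), IsCompact K → K ⊆ ball 0 1 → IsCompact (F' ⁻¹' K) := by
    intro K hK hKb
    have h1 : IsCompact (F ⁻¹' K) :=
      (hF.isInducing.isCompact_preimage_iff (by rw [hrange]; exact hKb)).mpr hK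
    refine (hC.union h1).of_isClosed_subset (hK.isClosed.preimage hF'c) ?_
    intro x hx
    by_cases hxC : x ∈ C
    · exact Or.inl hxC
    · right
      show F x ∈ K
      rw [← heq x hxC]
      exact hx
  have hnhd : ∀ y ∈ ball (0 : E n) 1, ∃ K : Set (E n), K ∈ 𝓝 y ∧ IsCompact K ∧
      K ⊆ ball 0 1 := by
    intro y hy
    obtain ⟨ε, hε, hεb⟩ := nhds_basis_closedBall.mem_iff.mp (isOpen_ball.mem_nhds hy)
    exact ⟨closedBall y ε, closedBall_mem_nhds y hε, isCompact_closedBall y ε, hεb⟩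
  have hconn : IsPreconnected (ball (0 : E n) 1) := (convex_ball 0 1).isPreconnected
  have hsurj : ball 0 1 ⊆ range F' := by
    apply hconn.subset_of_closure_inter_subset
    · rw [← image_univ]
      exact hopen univ isOpen_univ
    · obtain ⟨x⟩ := hne
      exact ⟨F' x, hsub ⟨x, rfl⟩, ⟨x, rfl⟩⟩
    · rintro y ⟨hy1, hy2⟩
      obtain ⟨K, hK1, hK2, hK3⟩ := hnhd y hy2
      refine mem_of_mem_closure_inter hK1 ?_ hy1
      have h1 : range F' ∩ K = F' '' (F' ⁻¹' K) := by
        rw [image_preimage_eq_range_inter]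
      rw [h1]
      exact ((hprop K hK2 hK3).image hF'c).isClosed
  refine ⟨?_, Subset.antisymm hsub hsurj⟩
  -- the double points
  let D : Set (E n) := {y | ∃ x x', x ≠ x' ∧ F' x = y ∧ F' x' = y}
  have hDo : IsOpen D := by
    rw [isOpen_iff_mem_nhds]
    rintro y ⟨x, x', hxx, hx, hx'⟩
    obtain ⟨U, V, hU, hV, hxU, hxV, hUV⟩ := t2_separation hxx
    have h1 : F' '' U ∩ F' '' V ∈ 𝓝 y := by
      apply IsOpen.mem_nhds ((hopen U hU).inter (hopen V hV))
      exact ⟨⟨x, hxU, hx⟩, ⟨x', hxV, hx'⟩⟩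
    filter_upwards [h1] with z hz
    obtain ⟨⟨a, ha, haz⟩, ⟨b, hb, hbz⟩⟩ := hz
    refine ⟨a, b, ?_, haz, hbz⟩
    rintro rfl
    exact (Set.disjoint_left.mp hUV) ha hb
  have hDc : closure D ∩ ball 0 1 ⊆ D := by
    rintro y ⟨hy1, hy2⟩
    obtain ⟨K, hK1, hK2, hK3⟩ := hnhd y hy2
    refine mem_of_mem_closure_inter hK1 ?_ hy1
    have hP := hprop K hK2 hK3
    -- neighbourhood of the diagonal
    have hloc : ∀ x : X, ∃ U : Set X, IsOpen U ∧ x ∈ U ∧ InjOn F' U := by
      intro x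
      obtain ⟨u, hu, hinj⟩ := (hLD x).eventually_injOn
      obtain ⟨v, hv1, hv2, hv3⟩ := mem_nhds_iff.mp hu
      exact ⟨v, hv2, hv3, hinj.mono hv1⟩
    choose U hU1 hU2 hU3 using hloc
    let W : Set (X × X) := ⋃ x, U x ×ˢ U x
    have hW : IsOpen W := isOpen_iUnion fun x => (hU1 x).prod (hU1 x)
    have hQ : IsCompact (((F' ⁻¹' K) ×ˢ (F' ⁻¹' K)) ∩ ({p : X × X | F' p.1 = F' p.2} ∩ Wᶜ)) := by
      apply (hP.prod hP).inter_right
      apply IsClosed.inter
      · exact isClosed_eq (hF'c.comp continuous_fst) (hF'c.comp continuous_snd)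
      · exact hW.isClosed_compl
    have h1 : D ∩ K = (fun p : X × X => F' p.1) ''
        (((F' ⁻¹' K) ×ˢ (F' ⁻¹' K)) ∩ ({p : X × X | F' p.1 = F' p.2} ∩ Wᶜ)) := by
      ext z
      constructor
      · rintro ⟨⟨x, x', hxx, hx, hx'⟩, hzK⟩
        refine ⟨(x, x'), ⟨⟨?_, ?_⟩, ?_, ?_⟩, hx⟩
        · show F' x ∈ K
          rw [hx]; exact hzK
        · show F' x' ∈ K
          rw [hx']; exact hzK
        · show F' x = F' x'
          rw [hx, hx']
        · intro hxW
          obtain ⟨w, hw⟩ := mem_iUnion.mp hxW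
          exact hxx (hU3 w hw.1 hw.2 (by show F' x = F' x'; rw [hx, hx']))
      · rintro ⟨⟨x, x'⟩, ⟨⟨h1, h2⟩, h3, h4⟩, rfl⟩
        refine ⟨⟨x, x', ?_, rfl, h3.symm⟩, h1⟩
        rintro rfl
        exact h4 (mem_iUnion.mpr ⟨x, hU2 x, hU2 x⟩)
    rw [h1]
    exact (hQ.image (hF'c.comp continuous_fst)).isClosed
  intro a b hab
  by_contra hne'
  have hDb : (ball 0 1 ∩ D).Nonempty := ⟨F' a, hsub ⟨a, rfl⟩, ⟨a, b, hne', rfl, hab.symm⟩⟩
  have hDall : ball 0 1 ⊆ D := hconn.subset_of_closure_inter_subset hDo hDb hDc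
  rcases Nat.eq_zero_or_pos n with hn | hn
  · subst hn
    exact hne' (hF.injective (Subsingleton.elim _ _))
  · -- a point of the ball off the images of `C`
    have hS : IsCompact (F '' C ∪ F' '' C) :=
      (hC.image hF.continuous).union (hC.image hF'c)
    have hSb : F '' C ∪ F' '' C ⊆ ball 0 1 := by
      rintro _ (⟨x, -, rfl⟩ | ⟨x, -, rfl⟩)
      · rw [← hrange]; exact ⟨x, rfl⟩
      · exact hsub ⟨x, rfl⟩
    have hex : ∃ y ∈ ball (0 : E n) 1, y ∉ F '' C ∪ F' '' C := by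
      by_contra hcon
      push Not at hcon
      have h2 : ball (0 : E n) 1 = F '' C ∪ F' '' C := Subset.antisymm hcon hSb
      have h3 : IsClosed (ball (0 : E n) 1) := by rw [h2]; exact hS.isClosed
      have h4 : ball (0 : E n) 1 = univ :=
        IsClopen.eq_univ ⟨h3, isOpen_ball⟩ ⟨0, mem_ball_self one_pos⟩
      have h5 : EuclideanSpace.single (⟨0, hn⟩ : Fin n) (2 : ℝ) ∈ ball (0 : E n) 1 := by
        rw [h4]; exact mem_univ _
      rw [mem_ball_zero_iff, EuclideanSpace.norm_single] at h5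
      norm_num at h5
    obtain ⟨y, hy1, hy2⟩ := hex
    obtain ⟨x, x', hxx, hx, hx'⟩ := hDall hy1
    have h6 : x ∉ C := fun h => hy2 (Or.inr ⟨x, h, hx⟩)
    have h7 : x' ∉ C := fun h => hy2 (Or.inr ⟨x', h, hx'⟩)
    apply hxx
    apply hF.injective
    rw [← heq x h6, ← heq x' h7, hx, hx']

end Pool.Agent.Y899.SH
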