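import Pool.Agent.Y522.Stm6

/-!
Uniform boxes for directionally monotone maps (job SH3-Chart).
-/

set_option autoImplicit false

open Set Filter Topology Metric Function MeasureTheory
open scoped Manifold ContDiff

noncomputable section

namespace Pool.Agent.Y899.SH

open Pool.Agent.Y522

theorem exists_min {α : Type*} (t : Finset α) (r : α → ℝ) (h : ∀ u ∈ t, 0 < r u) :
    ∃ ρ : ℝ, 0 < ρ ∧ ∀ u ∈ t, ρ ≤ r u := by
  classical
  induction t using Finset.induction_on with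
  | empty => exact ⟨1, one_pos, by simp⟩
  | insert a t _ ih =>
    obtain ⟨ρ, h1, h2⟩ := ih (fun u hu => h u (Finset.mem_insert_of_mem hu))
    refine ⟨min ρ (r a), lt_min h1 (h a (Finset.mem_insert_self _ _)), ?_⟩
    intro u hu
    rcases Finset.mem_insert.mp hu with rfl | hu
    · exact min_le_right _ _
    · exact (min_le_left _ _).trans (h2 u hu)

theorem mchart : StMChart := by
  intro n X _ _ F x hx
  obtain ⟨A, hA0, hA, hmon⟩ := hx
  have hmon' : ∀ v : E n, ∃ (r : ℝ) (ℓ : E n →L[ℝ] ℝ), v ≠ 0 → 0 < r ∧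
    ∀ p q : E n, ‖p‖ ≤ r → ‖q‖ ≤ r → ∀ t : ℝ, 0 < t → ‖q - p - t • v‖ ≤ r * t →
      ℓ (F (A p)) < ℓ (F (A q)) := by
    intro v
    by_cases hv : v = 0
    · exact ⟨1, 0, fun h => absurd hv h⟩
    · obtain ⟨r, ℓ, h1, h2⟩ := hmon v hv
      exact ⟨r, ℓ, fun _ => ⟨h1, h2⟩⟩
  choose r ℓ hr using hmon'
  obtain ⟨u, hu, hinj⟩ := hA.eventually_injOn
  obtain ⟨r1, hr1, hball⟩ := (nhds_basis_closedBall (x := (0 : E n))).mem_iff.mp
    (Filter.inter_mem hu hA.eventually)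
  obtain ⟨t, ht1, ht2⟩ := (isCompact_sphere (0 : E n) 1).elim_nhds_subcover
    (fun v => ball v (r v / 2)) (by
      intro v hv
      have hv0 : v ≠ 0 := by
        rintro rfl
        simp at hv
      exact ball_mem_nhds v (by linarith [(hr v hv0).1]))
  have hne : ∀ v ∈ t, v ≠ 0 := by
    rintro v hv rfl
    have := ht1 0 hv
    simp at this
  obtain ⟨ρ0, hρ0, hρt⟩ := exists_min t r (fun v hv => (hr v (hne v hv)).1)
  obtain ⟨ρ, hρdef⟩ : ∃ ρ : ℝ, ρ = min ρ0 r1 := ⟨_, rfl⟩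
  have hρ : 0 < ρ := by rw [hρdef]; exact lt_min hρ0 hr1
  have hρ1 : ρ ≤ r1 := by rw [hρdef]; exact min_le_right _ _
  have hρ2 : ∀ v ∈ t, ρ ≤ r v := fun v hv => by
    rw [hρdef]
    exact (min_le_left _ _).trans (hρt v hv)
  have hnorm : ∀ z : E n, ‖z‖ ≤ 2 → ‖(ρ / 2) • z‖ ≤ ρ := by
    intro z hz
    rw [norm_smul, Real.norm_eq_abs, abs_of_pos (by linarith)]
    calc ρ / 2 * ‖z‖ ≤ ρ / 2 * 2 := mul_le_mul_of_nonneg_left hz (by linarith)
      _ = ρ := by ring
  have hmem : ∀ z ∈ closedBall (0 : E n) 2, (ρ / 2) • z ∈ closedBall (0 : E n) r1 := by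
    intro z hz
    rw [mem_closedBall_zero_iff] at hz ⊢
    exact (hnorm z hz).trans hρ1
  refine ⟨fun z => A ((ρ / 2) • z), ρ / 2, by linarith, ?_, ?_, ?_, ?_⟩
  · simp [hA0]
  · intro a ha b hb hab
    have h1 := hinj (hball (hmem a ha)).1 (hball (hmem b hb)).1 hab
    have h2 : (ρ / 2 : ℝ) ≠ 0 := by linarith
    exact smul_right_injective _ h2 h1
  · intro z hz
    have h2 : (ρ / 2 : ℝ) ≠ 0 := by linarith
    have h3 : LD n (fun y : E n => (ρ / 2) • y) z :=
      LD_linear (ContinuousLinearEquiv.smulLeft (Units.mk0 (ρ / 2) h2)) z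
    have h4 : LD n A ((ρ / 2) • z) := (hball (hmem z hz)).2
    exact LD.comp_fun (g := A) (f := fun y : E n => (ρ / 2) • y) h4 h3
  · intro v hv
    have hv' : v ∈ sphere (0 : E n) 1 := by simpa using hv
    obtain ⟨w, hw⟩ := mem_iUnion.mp (ht2 hv')
    obtain ⟨hwt, hvw⟩ := mem_iUnion.mp hw
    rw [mem_ball, dist_eq_norm] at hvw
    refine ⟨ℓ w, ?_⟩
    intro p q hp hq s hs hpq
    have h1 := hρ2 w hwt
    refine (hr w (hne w hwt)).2 ((ρ / 2) • p) ((ρ / 2) • q) ((hnorm p hp).trans h1)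
      ((hnorm q hq).trans h1) (ρ / 2 * s) (by positivity) ?_
    have h2 : (ρ / 2) • q - (ρ / 2) • p - (ρ / 2 * s) • w =
        (ρ / 2) • (q - p - s • v) + (ρ / 2 * s) • (v - w) := by
      module
    rw [h2]
    calc ‖(ρ / 2) • (q - p - s • v) + (ρ / 2 * s) • (v - w)‖
        ≤ ‖(ρ / 2) • (q - p - s • v)‖ + ‖(ρ / 2 * s) • (v - w)‖ := norm_add_le _ _
      _ = ρ / 2 * ‖q - p - s • v‖ + ρ / 2 * s * ‖v - w‖ := by
          rw [norm_smul, norm_smul, Real.norm_eq_abs, Real.norm_eq_abs,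
            abs_of_pos (by linarith), abs_of_pos (by positivity)]
      _ ≤ ρ / 2 * (ρ / 2 * s) + ρ / 2 * s * (r w / 2) := by
          apply add_le_add
          · exact mul_le_mul_of_nonneg_left hpq (by linarith)
          · exact mul_le_mul_of_nonneg_left hvw.le (by positivity)
      _ = (ρ / 2 + r w / 2) * (ρ / 2 * s) := by ring
      _ ≤ r w * (ρ / 2 * s) := by
          apply mul_le_mul_of_nonneg_right _ (by positivity)
          linarith

end Pool.Agent.Y899.SH
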